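import Pool.Agent.W426.SM.Stm

/-! SM-ZF: the zeta function has an entire numerator (helper803). -/

set_option autoImplicit false

namespace Pool.Agent.W803.SM
open Pool.Agent.W426.SM MeasureTheory

variable {n k : ℕ}

/-- the minimal monomials -/
noncomputable def filt (m : Fin k → Fin n → ℕ) (u : Fin n → ℕ) : Finset (Fin k) :=
  Finset.univ.filter fun j => ∑ i, u i * m j i = gord m u

theorem gord_le (m : Fin k → Fin n → ℕ) (u : Fin n → ℕ) (j : Fin k) :
    gord m u ≤ ∑ i, u i * m j i := ciInf_le (OrderBot.bddBelow _) j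

theorem exists_gord (hk : 0 < k) (m : Fin k → Fin n → ℕ) (u : Fin n → ℕ) :
    ∃ j, ∑ i, u i * m j i = gord m u := by
  have : Nonempty (Fin k) := ⟨⟨0, hk⟩⟩
  exact Nat.sInf_mem (Set.range_nonempty (fun j => ∑ i, u i * m j i))

theorem filt_nonempty (hk : 0 < k) (m : Fin k → Fin n → ℕ) (u : Fin n → ℕ) :
    (filt m u).Nonempty := by
  obtain ⟨j, hj⟩ := exists_gord hk m u
  exact ⟨j, by simp [filt, hj]⟩

theorem mem_filt {m : Fin k → Fin n → ℕ} {u : Fin n → ℕ} {j : Fin k} :
    j ∈ filt m u ↔ ∑ i, u i * m j i = gord m u := by simp [filt]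

/-- the weight -/
noncomputable def W (p : ℕ) (A : Fin n → ℕ) (m : Fin k → Fin n → ℕ) (e : ℕ) (s : ℂ)
    (u : Fin n → ℕ) : ℂ :=
  (p : ℂ) ^ (-(((∑ i, u i : ℕ) : ℂ) + s * ford A m e u))

/-- the variables -/
noncomputable def Y (p : ℕ) (A : Fin n → ℕ) (m : Fin k → Fin n → ℕ) (e : ℕ) (j0 : Fin k) (s : ℂ)
    (i : Fin n) : ℂ :=
  (p : ℂ) ^ (-(1 + s * ((A i + e * m j0 i : ℕ) : ℂ)))

theorem W_eq {p : ℕ} (hp : 2 ≤ p) (A : Fin n → ℕ) (m : Fin k → Fin n → ℕ) (e : ℕ) (j0 : Fin k)
    (s : ℂ) (u : Fin n → ℕ) (h : ∑ i, u i * m j0 i = gord m u) :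
    W p A m e s u = ∏ i, Y p A m e j0 s i ^ u i := by
  have hp0 : (p : ℂ) ≠ 0 := by
    exact_mod_cast (by omega : p ≠ 0)
  unfold W Y
  simp only [Complex.cpow_def_of_ne_zero hp0, ← Complex.exp_nat_mul]
  rw [← Complex.exp_sum]
  congr 1
  unfold ford
  rw [← h]
  push_cast
  rw [Finset.mul_sum, ← Finset.sum_add_distrib, Finset.mul_sum, ← Finset.sum_add_distrib,
    ← Finset.sum_neg_distrib, Finset.mul_sum]
  refine Finset.sum_congr rfl fun i _ => ?_
  ring

theorem norm_Y {p : ℕ} (hp : 2 ≤ p) (A : Fin n → ℕ) (m : Fin k → Fin n → ℕ) (e : ℕ) (j0 : Fin k)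
    {s : ℂ} (hs : 0 < s.re) (i : Fin n) : ‖Y p A m e j0 s i‖ < 1 := by
  unfold Y
  rw [Complex.norm_natCast_cpow_of_pos (by omega)]
  refine Real.rpow_lt_one_of_one_lt_of_neg (by exact_mod_cast (by omega : 1 < p)) ?_
  have h1 : 0 ≤ s.re * ((A i + e * m j0 i : ℕ) : ℝ) := by positivity
  rw [Complex.neg_re, Complex.add_re, Complex.one_re, Complex.mul_re, Complex.natCast_re,
    Complex.natCast_im, mul_zero, sub_zero]
  linarith

theorem norm_W {p : ℕ} (hp : 2 ≤ p) (A : Fin n → ℕ) (m : Fin k → Fin n → ℕ) (e : ℕ)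
    {s : ℂ} (hs : 0 < s.re) (u : Fin n → ℕ) :
    ‖W p A m e s u‖ ≤ ∏ i, ((1 : ℝ) / 2) ^ u i := by
  unfold W
  rw [Complex.norm_natCast_cpow_of_pos (by omega)]
  have h1 : 0 ≤ s.re * (ford A m e u : ℝ) := by positivity
  rw [Complex.neg_re, Complex.add_re, Complex.mul_re, Complex.natCast_re, Complex.natCast_re,
    Complex.natCast_im, mul_zero, sub_zero]
  have hp1 : (1 : ℝ) ≤ p := by exact_mod_cast (by omega : 1 ≤ p)
  have hp2 : (2 : ℝ) ≤ p := by exact_mod_cast hp
  calc (p : ℝ) ^ (-(((∑ i, u i : ℕ) : ℝ) + s.re * (ford A m e u : ℝ)))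
      ≤ (p : ℝ) ^ (-((∑ i, u i : ℕ) : ℝ)) :=
        Real.rpow_le_rpow_of_exponent_le hp1 (by linarith)
    _ = ((p : ℝ) ^ (∑ i, u i))⁻¹ := by
        rw [Real.rpow_neg (by linarith), Real.rpow_natCast]
    _ ≤ ((2 : ℝ) ^ (∑ i, u i))⁻¹ := by
        gcongr
    _ = ∏ i, ((1 : ℝ) / 2) ^ u i := by
        rw [Finset.prod_pow_eq_pow_sum, one_div, inv_pow]

theorem summable_half : Summable (fun u : Fin n → ℕ => ∏ i, ((1 : ℝ) / 2) ^ u i) := by
  refine summable_of_sum_le (c := (2 : ℝ) ^ n) (fun u => by positivity) fun F => ?_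
  obtain ⟨N, hN⟩ : ∃ N : ℕ, ∀ u ∈ F, ∀ i, u i < N := by
    refine ⟨(F.sup fun u => Finset.univ.sup u) + 1, fun u hu i => ?_⟩
    refine Nat.lt_succ_of_le ?_
    exact (Finset.le_sup (f := u) (Finset.mem_univ i)).trans
      (Finset.le_sup (f := fun u : Fin n → ℕ => Finset.univ.sup u) hu)
  have hsub : F ⊆ Fintype.piFinset (fun _ : Fin n => Finset.range N) := by
    intro u hu
    rw [Fintype.mem_piFinset]
    exact fun i => Finset.mem_range.2 (hN u hu i)
  refine (Finset.sum_le_sum_of_subset_of_nonneg hsub fun u _ _ => by positivity).trans ?_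
  rw [← Finset.prod_univ_sum (fun _ : Fin n => Finset.range N) (fun _ j => ((1 : ℝ) / 2) ^ j)]
  rw [Finset.prod_const, Finset.card_univ, Fintype.card_fin]
  refine pow_le_pow_left₀ (Finset.sum_nonneg fun i _ => by positivity) ?_ n
  have h := Summable.sum_le_tsum (Finset.range N) (fun i _ => by positivity)
    summable_geometric_two
  rwa [tsum_geometric_two] at h

theorem diff_pow {p : ℕ} (hp : 2 ≤ p) {f : ℂ → ℂ} (hf : Differentiable ℂ f) :
    Differentiable ℂ (fun s => (p : ℂ) ^ f s) :=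
  hf.const_cpow (Or.inl (by exact_mod_cast (by omega : p ≠ 0)))

theorem diff_aeval {f : ℂ → Fin n → ℂ} (hf : ∀ i, Differentiable ℂ (fun s => f s i))
    (P : MvPolynomial (Fin n) ℤ) : Differentiable ℂ (fun s => MvPolynomial.aeval (f s) P) := by
  induction P using MvPolynomial.induction_on with
  | C a => simp
  | add P Q hP hQ =>
    simp only [map_add]
    exact hP.add hQ
  | mul_X P i hP =>
    simp only [map_mul, MvPolynomial.aeval_X]
    exact hP.mul (hf i)

/-- the lattice points with a given set of minimal monomials -/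
theorem key (h1 : S_ZC) (A : Fin n → ℕ) (m : Fin k → Fin n → ℕ) (e : ℕ)
    (τ : Finset (Fin k)) (hτ : τ.Nonempty) :
    ∃ (j0 : Fin k) (T : ℕ) (ray : Fin T → Fin n → ℕ) (P : MvPolynomial (Fin n) ℤ),
      (∀ q, IsRay m (ray q)) ∧ ∀ (p : ℕ), 2 ≤ p → ∀ s : ℂ, 0 < s.re →
        (∑' u : ({u | filt m u = τ} : Set (Fin n → ℕ)), W p A m e s u) *
          ∏ q, (1 - W p A m e s (ray q)) = MvPolynomial.aeval (Y p A m e j0 s) P := by
  obtain ⟨j0, hj0⟩ := hτ
  obtain ⟨T, ray, P, hray, hP⟩ := h1 (fun l i => (m l i : ℤ) - m j0 i)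
    (fun l => if l ∈ τ then 0 else 1) τ
  have hsum : ∀ (l : Fin k) (u : Fin n → ℕ), ∑ i, ((m l i : ℤ) - m j0 i) * (u i : ℤ) =
      ((∑ i, u i * m l i : ℕ) : ℤ) - ((∑ i, u i * m j0 i : ℕ) : ℤ) := by
    intro l u
    push_cast
    rw [← Finset.sum_sub_distrib]
    refine Finset.sum_congr rfl fun i _ => ?_
    ring
  have hset : ({u | filt m u = τ} : Set (Fin n → ℕ)) =
      poly (fun l i => (m l i : ℤ) - m j0 i) (fun l => if l ∈ τ then 0 else 1) τ := by
    ext u
    simp only [Set.mem_ofPred_eq, poly, hsum]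
    constructor
    · intro h
      have h0 : ∑ i, u i * m j0 i = gord m u := mem_filt.1 (h ▸ hj0)
      refine ⟨fun j => ?_, fun j hj => ?_⟩
      · split_ifs with hj
        · have : ∑ i, u i * m j i = gord m u := mem_filt.1 (h ▸ hj)
          rw [this, h0, sub_self]
        · have h2 : ∑ i, u i * m j i ≠ gord m u := fun h3 => hj (h ▸ mem_filt.2 h3)
          have h3 := gord_le m u j
          rw [h0]
          omega
      · rw [if_pos hj]
        have : ∑ i, u i * m j i = gord m u := mem_filt.1 (h ▸ hj)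
        rw [this, h0, sub_self]
    · rintro ⟨ha, hb⟩
      have h0 : ∑ i, u i * m j0 i = gord m u := by
        obtain ⟨j, hj⟩ := exists_gord (Fin.pos j0) m u
        have h2 := ha j
        have h3 := gord_le m u j0
        have h4 : (0 : ℤ) ≤ if j ∈ τ then 0 else 1 := by split_ifs <;> norm_num
        omega
      ext j
      rw [mem_filt]
      constructor
      · intro h
        by_contra hj
        have h2 := ha j
        rw [if_neg hj] at h2
        omega
      · intro hj
        have h2 := hb j hj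
        rw [if_pos hj] at h2
        omega
  have hmin : ∀ q, ∑ i, ray q i * m j0 i = gord m (ray q) := by
    intro q
    obtain ⟨j, hj⟩ := exists_gord (Fin.pos j0) m (ray q)
    have h2 := (hray q).2.1 j
    have h3 := gord_le m (ray q) j0
    rw [hsum] at h2
    omega
  refine ⟨j0, T, ray, P, fun q => ⟨(hray q).1, fun u hu hu2 => ?_⟩, fun p hp s hs => ?_⟩
  · refine (hray q).2.2.2 u hu fun j hj => ?_
    rw [hsum] at hj
    have hfj : face m (ray q) j := by
      have := hmin q
      show ∑ i, ray q i * m j i = gord m (ray q)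
      omega
    have h2 := hu2 j j0 hfj (hmin q)
    have h3 : ∑ i, (((m j i : ℤ) - m j0 i : ℤ) : ℚ) * u i =
        ∑ i, u i * m j i - ∑ i, u i * m j0 i := by
      rw [← Finset.sum_sub_distrib]
      refine Finset.sum_congr rfl fun i _ => ?_
      push_cast
      ring
    rw [h3, h2, sub_self]
  · have h2 := hP (Y p A m e j0 s) (norm_Y hp A m e j0 hs)
    rw [← h2]
    congr 1
    · rw [← tsum_congr_set_coe (fun u : Fin n → ℕ => ∏ i, Y p A m e j0 s i ^ u i) hset]
      refine tsum_congr fun u => ?_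
      have h5 : filt m u.1 = τ := u.2
      exact W_eq hp A m e j0 s _ (mem_filt.1 (by rw [h5]; exact hj0))
    · refine Finset.prod_congr rfl fun q _ => ?_
      rw [W_eq hp A m e j0 s _ (hmin q)]

theorem zf (h1 : S_ZC) (h2 : S_ZM) : S_ZF := by
  intro n k A m c e hm hc hk he
  obtain ⟨S, hS⟩ := h2 A m c e hm hc hk he
  refine ⟨S, ?_⟩
  intro p hpf hpS hmeas hborel
  obtain ⟨V, C₀, C₁, hV, hint⟩ := hS p hpS
  have hp : 2 ≤ p := hpf.out.two_le
  choose j0 T ray P hray hP using fun τ : {τ : Finset (Fin k) // τ.Nonempty} =>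
    key h1 A m e τ.1 τ.2
  set E := (Σ τ : {τ : Finset (Fin k) // τ.Nonempty}, Fin (T τ)) with hE
  set ψ : E ≃ Fin (Fintype.card E) := Fintype.equivFin E with hψ
  set D : {τ : Finset (Fin k) // τ.Nonempty} → ℂ → ℂ :=
    fun τ s => ∏ q, (1 - W p A m e s (ray τ q)) with hD
  set H : ℂ → ℂ := fun s => V * ∑ τ : {τ : Finset (Fin k) // τ.Nonempty},
    ((C₀ τ : ℂ) * (1 - (p : ℂ) ^ (-(1 + e * s))) + (C₁ τ : ℂ) * (p : ℂ) ^ (-(e * s))) *
      MvPolynomial.aeval (Y p A m e (j0 τ) s) (P τ) *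
      ∏ τ' ∈ Finset.univ.erase τ, D τ' s with hH
  refine ⟨Fintype.card E, fun q => ray (ψ.symm q).1 (ψ.symm q).2, H, fun q => hray _ _, ?_, ?_⟩
  · have hW : ∀ u : Fin n → ℕ, Differentiable ℂ (fun s => W p A m e s u) := fun u =>
      diff_pow hp (((differentiable_const _).add (differentiable_id.mul_const _)).neg)
    have hDd : ∀ τ, Differentiable ℂ (D τ) := fun τ =>
      Differentiable.fun_finsetProd fun q _ => (differentiable_const _).sub (hW _)
    refine (differentiable_const _).mul (Differentiable.fun_sum fun τ _ => ?_)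
    refine ((((differentiable_const _).mul ((differentiable_const _).sub
      (diff_pow hp ((differentiable_const _).add (differentiable_id.const_mul _)).neg))).add
      ((differentiable_const _).mul (diff_pow hp (differentiable_id.const_mul _).neg))).mul
      (diff_aeval (fun i => ?_) _)).mul (Differentiable.fun_finsetProd fun τ' _ => hDd τ')
    exact diff_pow hp (((differentiable_const _).add (differentiable_id.mul_const _)).neg)
  · intro s hs
    rw [hint s hs]
    set X : ℂ := (p : ℂ) ^ (-(1 + e * s)) with hX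
    set Z : ℂ := (p : ℂ) ^ (-(e * s)) with hZ
    have hX1 : 1 - X ≠ 0 := by
      have : ‖X‖ < 1 := by
        rw [hX, Complex.norm_natCast_cpow_of_pos (by omega)]
        refine Real.rpow_lt_one_of_one_lt_of_neg (by exact_mod_cast (by omega : 1 < p)) ?_
        have h1 : 0 ≤ (e : ℝ) * s.re := by positivity
        rw [Complex.neg_re, Complex.add_re, Complex.one_re, Complex.mul_re, Complex.natCast_re,
          Complex.natCast_im, zero_mul, sub_zero]
        linarith
      intro h
      have h3 : X = 1 := (sub_eq_zero.1 h).symm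
      rw [h3, norm_one] at this
      exact lt_irrefl _ this
    set g : Finset (Fin k) → ℂ := fun τ => (C₀ τ : ℂ) + (C₁ τ : ℂ) * (Z / (1 - X)) with hg
    -- the sum
    have hsumm : Summable (fun u : Fin n → ℕ => W p A m e s u * g (filt m u)) := by
      refine Summable.of_norm_bounded
        (g := fun u : Fin n → ℕ => (∏ i, ((1 : ℝ) / 2) ^ u i) * ∑ τ : Finset (Fin k), ‖g τ‖)
        (summable_half.mul_right _) fun u => ?_
      rw [norm_mul]
      refine mul_le_mul (norm_W hp A m e hs u) ?_ (norm_nonneg _)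
        (Finset.prod_nonneg fun i _ => by positivity)
      exact Finset.single_le_sum (f := fun τ => ‖g τ‖) (fun τ _ => norm_nonneg _)
        (Finset.mem_univ (filt m u))
    have hsplit : ∑' u : Fin n → ℕ, W p A m e s u * g (filt m u) =
        ∑ τ : {τ : Finset (Fin k) // τ.Nonempty},
          (∑' u : ({u | filt m u = τ.1} : Set (Fin n → ℕ)), W p A m e s u) * g τ.1 := by
      set φ : (Fin n → ℕ) → {τ : Finset (Fin k) // τ.Nonempty} :=
        fun u => ⟨filt m u, filt_nonempty hk m u⟩ with hφ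
      have h3 := (Equiv.sigmaFiberEquiv φ).tsum_eq
        (fun u : Fin n → ℕ => W p A m e s u * g (filt m u))
      have h4 : Summable (fun x : (Σ τ, {u // φ u = τ}) =>
          W p A m e s ((Equiv.sigmaFiberEquiv φ) x) *
            g (filt m ((Equiv.sigmaFiberEquiv φ) x))) :=
        (Equiv.summable_iff (Equiv.sigmaFiberEquiv φ)).2 hsumm
      rw [← h3, h4.tsum_sigma, tsum_fintype]
      refine Finset.sum_congr rfl fun τ _ => ?_
      rw [← tsum_mul_right]
      have h5 : ({u | filt m u = τ.1} : Set (Fin n → ℕ)) = {u | φ u = τ} := by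
        ext u
        simp only [Set.mem_ofPred_eq, hφ]
        exact ⟨fun h => Subtype.ext h, fun h => congrArg Subtype.val h⟩
      rw [tsum_congr_set_coe (fun u : Fin n → ℕ => W p A m e s u * g τ.1) h5]
      refine tsum_congr fun u => ?_
      have h6 : filt m u.1 = τ.1 := congrArg Subtype.val u.2
      show W p A m e s u.1 * g (filt m u.1) = _
      rw [h6]
    have hprod : ∏ q : Fin (Fintype.card E),
        (1 - W p A m e s (ray (ψ.symm q).1 (ψ.symm q).2)) = ∏ τ, D τ s := by
      rw [Equiv.prod_comp ψ.symm (fun x : E => 1 - W p A m e s (ray x.1 x.2)),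
        Fintype.prod_sigma]
    show H s = (1 - X) * (∏ q : Fin (Fintype.card E),
        (1 - W p A m e s (ray (ψ.symm q).1 (ψ.symm q).2))) *
        (V * ∑' u : Fin n → ℕ, W p A m e s u * g (filt m u))
    rw [hprod, hsplit]
    simp only [hH]
    rw [mul_left_comm]
    congr 1
    rw [Finset.mul_sum]
    refine Finset.sum_congr rfl fun τ _ => ?_
    rw [← Finset.mul_prod_erase Finset.univ (fun τ => D τ s) (Finset.mem_univ τ)]
    have h7 : (∑' u : ({u | filt m u = τ.1} : Set (Fin n → ℕ)), W p A m e s u) * D τ s =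
        MvPolynomial.aeval (Y p A m e (j0 τ) s) (P τ) := hP τ p hp s hs
    have h8 : g τ.1 * (1 - X) = (C₀ τ : ℂ) * (1 - X) + (C₁ τ : ℂ) * Z := by
      simp only [hg]
      field_simp
    rw [← h7, ← hX, ← hZ, ← h8]
    ring

/-- SM-ZF -/
theorem main (h1 : S_ZC) (h2 : S_ZM) : S_ZF := zf h1 h2

end Pool.Agent.W803.SM
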